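import Mathlib
import Pool.Agent.X38.RZ5

/-! Degree-preserving amalgamation of real zero polynomials in two shared variables fails
(with `d = 4`, `m = n = 1`). -/

namespace Pool.Agent.Results.MP_eea824_ag.NoAmalgam

open MvPolynomial Pool.Agent.X38.RZ

/-- There are real zero polynomials `p ∈ ℝ[x₁,x₂,y]` and `q ∈ ℝ[x₁,x₂,z]` of total degree at most
`4` with `p(x,0) = q(x,0)` which have no real zero amalgam `r ∈ ℝ[x₁,x₂,y,z]` of total degree at
most `4`, i.e. no such `r` with `r(x,y,0) = p` and `r(x,0,z) = q`. -/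
theorem result : ∃ p q : MvPolynomial (Fin 2 ⊕ Fin 1) ℝ,
    RealZero p ∧ RealZero q ∧ p.totalDegree ≤ 4 ∧ q.totalDegree ≤ 4 ∧
    (aeval (Sum.elim X 0) p : MvPolynomial (Fin 2) ℝ) = aeval (Sum.elim X 0) q ∧
    ¬ ∃ r : MvPolynomial (Fin 2 ⊕ (Fin 1 ⊕ Fin 1)) ℝ, RealZero r ∧ r.totalDegree ≤ 4 ∧
      aeval (Sum.elim (fun i => X (Sum.inl i)) (Sum.elim (fun j => X (Sum.inr j)) 0)) r = p ∧
      aeval (Sum.elim (fun i => X (Sum.inl i)) (Sum.elim 0 (fun j => X (Sum.inr j)))) r = q :=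
  ⟨pP, qP, realZero_pP, realZero_qP, td_pP, td_qP, restr_eq,
    fun ⟨_, hz, hr, hp, hq⟩ => contradiction hz hr hp hq⟩

end Pool.Agent.Results.MP_eea824_ag.NoAmalgam
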